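import Pool.Agent.H51.RG.Defs

/-!
Row EDM of the board RG (MP_994f6a_co): Edmonds' theorem on the perfect matching polytope from
Tutte's theorem and the two induction steps (helper49).
-/

set_option autoImplicit false

namespace Pool.Agent.H49.RG

open Pool.Agent.H43.F5 Pool.Agent.H51.RG Finset

/-- the graph of the edges with positive weight -/
def sup {V E : Type} (G : Gr V E) (w : E → ℚ) : Gr V E where
  vs := G.vs
  es := G.es.filter (fun e => 0 < w e)
  a := G.a
  b := G.b

theorem sum_sup {V E : Type} [DecidableEq V] [DecidableEq E] (G : Gr V E) (w : E → ℚ)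
    (p : E → Prop) [DecidablePred p] (hw : ∀ e ∈ G.es, 0 ≤ w e) (c : E → ℚ) :
    ∑ e ∈ (G.es.filter (fun e => 0 < w e)).filter p, c e * w e =
      ∑ e ∈ G.es.filter p, c e * w e := by
  refine Finset.sum_subset (Finset.filter_subset_filter _ (Finset.filter_subset _ _)) ?_
  intro e he hne
  rw [Finset.mem_filter] at he
  have h1 : ¬ 0 < w e := by
    intro h
    exact hne (Finset.mem_filter.2 ⟨Finset.mem_filter.2 ⟨he.1, h⟩, he.2⟩)
  have h2 : w e = 0 := le_antisymm (not_lt.1 h1) (hw e he.1)
  rw [h2, mul_zero]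

theorem sum_sup1 {V E : Type} [DecidableEq V] [DecidableEq E] (G : Gr V E) (w : E → ℚ)
    (p : E → Prop) [DecidablePred p] (hw : ∀ e ∈ G.es, 0 ≤ w e) :
    ∑ e ∈ (G.es.filter (fun e => 0 < w e)).filter p, w e = ∑ e ∈ G.es.filter p, w e := by
  have h := sum_sup G w p hw (fun _ => 1)
  simpa using h

theorem sup_wt {V E : Type} [DecidableEq V] [DecidableEq E] {G : Gr V E} {w w' : E → ℚ}
    (hG : Wt G w) (hw : ∀ e ∈ G.es, 0 ≤ w' e)
    (hdeg : ∀ v ∈ G.vs, ∑ e ∈ star G G.es v, w' e = 1)
    (hodd : ∀ X ⊆ G.vs, Odd X.card → 1 ≤ ∑ e ∈ cut G G.es X, w' e) : Wt (sup G w') w' where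
  ha e he := hG.ha e (Finset.mem_filter.1 he).1
  hb e he := hG.hb e (Finset.mem_filter.1 he).1
  ne e he := hG.ne e (Finset.mem_filter.1 he).1
  pos e he := (Finset.mem_filter.1 he).2
  deg v hv := by
    have h := sum_sup1 G w' (fun e => G.a e = v ∨ G.b e = v) hw
    exact h.trans (hdeg v hv)
  odd X hX ho := by
    have h := sum_sup1 G w' (Cr G X) hw
    have h2 := hodd X hX ho
    exact le_of_le_of_eq h2 h.symm

theorem sup_pm {V E : Type} [DecidableEq V] [DecidableEq E] {G : Gr V E} {w : E → ℚ}
    {M : Finset E} (hM : PM (sup G w) M) : PM G M where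
  sub := hM.sub.trans (Finset.filter_subset _ _)
  deg v hv := hM.deg v hv

/-- EDM: Edmonds' theorem -/
theorem pf_EDM (hTUT : T_TUT) (hTIGHT : T_TIGHT) (hDIR : T_DIR) : T_EDM := by
  intro V E _ _
  have key : ∀ n : ℕ, ∀ (G : Gr V E) (w : E → ℚ), G.vs.card + G.es.card = n → Wt G w →
      Cheap G w := by
    intro n
    induction n using Nat.strong_induction_on with
    | _ n ih =>
      intro G w hn hG
      have ih' : ∀ (w' : E → ℚ) (G' : Gr V E),
          G'.vs.card + G'.es.card < G.vs.card + G.es.card → Wt G' w' → Cheap G' w' := by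
        intro w' G' h1 h2
        exact ih _ (by omega) G' w' rfl h2
      by_cases hT : ∃ X ⊆ G.vs, Odd X.card ∧ 2 ≤ X.card ∧ 2 ≤ (G.vs \ X).card ∧
          ∑ e ∈ cut G G.es X, w e = 1
      · obtain ⟨X, hX, h1, h2, h3, h4⟩ := hT
        exact hTIGHT V E G w hG (ih' w) X hX h1 h2 h3 h4
      · intro c
        obtain ⟨M, hM⟩ := hTUT V E G w hG
        by_cases hc : ∑ e ∈ M, c e ≤ ∑ e ∈ G.es, c e * w e
        · exact ⟨M, hM, hc⟩
        · push Not at hc
          obtain ⟨w', h1, h2, h3, h4, h5⟩ := hDIR V E G w hG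
            (fun X hX ho hx hy he => hT ⟨X, hX, ho, hx, hy, he⟩) M hM c hc
          by_cases hz : ∃ e ∈ G.es, w' e = 0
          · obtain ⟨e0, he0, hz0⟩ := hz
            have hlt : (sup G w').vs.card + (sup G w').es.card < G.vs.card + G.es.card := by
              have h6 : (sup G w').es.card < G.es.card := by
                refine Finset.card_lt_card
                  ((Finset.ssubset_iff_of_subset (s₁ := (sup G w').es)
                    (Finset.filter_subset _ _)).2 ⟨e0, he0, ?_⟩)
                intro h7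
                have h8 := (Finset.mem_filter.1 h7).2
                rw [hz0] at h8
                exact lt_irrefl _ h8
              have h7 : (sup G w').vs.card = G.vs.card := rfl
              omega
            obtain ⟨M', hM', hc'⟩ := ih' w' (sup G w') hlt (sup_wt hG h2 h3 h4) c
            refine ⟨M', sup_pm hM', hc'.trans (le_trans (le_of_eq ?_) h1)⟩
            have h8 := sum_sup G w' (fun _ => True) h2 c
            rw [Finset.filter_true, Finset.filter_true] at h8
            exact h8
          · have hG' : Wt G w' := ⟨hG.ha, hG.hb, hG.ne, fun e he =>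
              lt_of_le_of_ne (h2 e he) (fun h => hz ⟨e, he, h.symm⟩), h3, h4⟩
            rcases h5 with h5 | h5
            · exact absurd h5 hz
            · obtain ⟨X, hX, k1, k2, k3, k4⟩ := h5
              obtain ⟨M', hM', hc'⟩ := hTIGHT V E G w' hG' (ih' w') X hX k1 k2 k3 k4 c
              exact ⟨M', hM', hc'.trans h1⟩
  intro G w hG
  exact key _ G w rfl hG

end Pool.Agent.H49.RG
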