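import Pool.Agent.H51.RG.Defs

/-!
Row TUT of the board RG (MP_994f6a_co): a graph with a weighting in the perfect matching polytope
has a perfect matching, second proof (helper49).
-/

set_option autoImplicit false

namespace Pool.Agent.H49.RG

open Pool.Agent.H43.F5 Pool.Agent.H51.RG Finset

variable {V E : Type} [DecidableEq V] [DecidableEq E]

/-- the simple graph of the multigraph `G` -/
def Sg (G : Gr V E) : SimpleGraph {v // v ∈ G.vs} where
  Adj u v := u ≠ v ∧ ∃ e ∈ G.es, s(G.a e, G.b e) = s(u.1, v.1)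
  symm := ⟨by
    rintro u v ⟨h1, e, he, h2⟩
    exact ⟨h1.symm, e, he, h2.trans Sym2.eq_swap⟩⟩
  loopless := ⟨fun u h => h.1 rfl⟩

theorem tutte_cond {G : Gr V E} {w : E → ℚ} (hG : Wt G w) (u : Set {v // v ∈ G.vs}) :
    ¬ (Sg G).IsTutteViolator u := by
  classical
  unfold SimpleGraph.IsTutteViolator
  rw [not_lt]
  set H' := ((⊤ : (Sg G).Subgraph).deleteVerts u).coe with hH'
  obtain ⟨S, hS⟩ : ∃ S : Finset H'.ConnectedComponent, ∀ C, C ∈ S ↔ Odd C.supp.ncard :=
    ⟨(Set.toFinite {C : H'.ConnectedComponent | Odd C.supp.ncard}).toFinset,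
      fun C => by rw [Set.Finite.mem_toFinset]; rfl⟩
  have hScard : H'.oddComponents.ncard = S.card := by
    rw [← Set.ncard_coe_finset]
    congr 1
    ext C
    rw [Finset.mem_coe, hS]
    rfl
  obtain ⟨U, hU⟩ : ∃ U : Finset V, ∀ v, v ∈ U ↔ ∃ t ∈ u, t.1 = v :=
    ⟨G.vs.filter (fun v => ∃ t ∈ u, t.1 = v), fun v => by
      rw [Finset.mem_filter]
      constructor
      · rintro ⟨_, h⟩; exact h
      · rintro ⟨t, ht, rfl⟩; exact ⟨t.2, t, ht, rfl⟩⟩
  have hUcard : U.card = u.ncard := by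
    rw [← Set.ncard_coe_finset, ← Set.ncard_image_of_injective u Subtype.val_injective]
    congr 1
    ext v
    rw [Finset.mem_coe, hU]
    rfl
  obtain ⟨X, hX⟩ : ∃ X : H'.ConnectedComponent → Finset V, ∀ C v, v ∈ X C ↔
      ∃ t ∈ C.supp, (t.1).1 = v :=
    ⟨fun C => G.vs.filter (fun v => ∃ t ∈ C.supp, (t.1).1 = v), fun C v => by
      rw [Finset.mem_filter]
      constructor
      · rintro ⟨_, h⟩; exact h
      · rintro ⟨t, ht, rfl⟩; exact ⟨(t.1).2, t, ht, rfl⟩⟩
  have hXcard : ∀ C, (X C).card = C.supp.ncard := by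
    intro C
    rw [← Set.ncard_coe_finset, ← Set.ncard_image_of_injective C.supp
      (f := fun t => (t.1).1) (fun a b h => Subtype.ext (Subtype.ext h))]
    congr 1
    ext v
    rw [Finset.mem_coe, hX]
    rfl
  have hXsub : ∀ C, X C ⊆ G.vs := by
    intro C v hv
    obtain ⟨t, _, rfl⟩ := (hX C v).1 hv
    exact (t.1).2
  have F1 : ∀ C v, v ∈ X C → v ∉ U := by
    intro C v hv hv2
    obtain ⟨t, _, rfl⟩ := (hX C v).1 hv
    obtain ⟨t', ht', he⟩ := (hU _).1 hv2
    have h1 : t' = t.1 := Subtype.ext he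
    rw [h1] at ht'
    exact t.2.2 ht'
  have F2 : ∀ C C' v, v ∈ X C → v ∈ X C' → C = C' := by
    intro C C' v hv hv'
    obtain ⟨t, ht, h1⟩ := (hX C v).1 hv
    obtain ⟨t', ht', h2⟩ := (hX C' v).1 hv'
    have h3 : t = t' := Subtype.ext (Subtype.ext (h1.trans h2.symm))
    rw [← h3] at ht'
    rw [SimpleGraph.ConnectedComponent.mem_supp_iff] at ht ht'
    rw [← ht, ← ht']
  -- an edge between two vertices outside `u` stays in the component
  have F0 : ∀ C, ∀ e ∈ G.es, ∀ p q : V, s(G.a e, G.b e) = s(p, q) → p ∈ X C → q ∉ U →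
      q ∈ X C := by
    intro C e he p q hpq hp hq
    obtain ⟨t, ht, rfl⟩ := (hX C p).1 hp
    have hqv : q ∈ G.vs := by
      have h1 : q ∈ s(G.a e, G.b e) := by rw [hpq]; exact Sym2.mem_mk_right _ _
      rcases Sym2.mem_iff.1 h1 with rfl | rfl
      · exact hG.ha e he
      · exact hG.hb e he
    have hne : (t.1).1 ≠ q := by
      intro h
      rw [h] at hpq
      have h1 := hG.ne e he
      rcases Sym2.eq_iff.1 hpq with ⟨h2, h3⟩ | ⟨h2, h3⟩
      · exact h1 (h2.trans h3.symm)
      · exact h1 (h2.trans h3.symm)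
    have hqu : (⟨q, hqv⟩ : {v // v ∈ G.vs}) ∉ u := fun h => hq ((hU q).2 ⟨_, h, rfl⟩)
    have hmem : (⟨q, hqv⟩ : {v // v ∈ G.vs}) ∈ ((⊤ : (Sg G).Subgraph).deleteVerts u).verts :=
      ⟨trivial, hqu⟩
    have hadj : H'.Adj t ⟨⟨q, hqv⟩, hmem⟩ := by
      rw [hH', SimpleGraph.Subgraph.coe_adj, SimpleGraph.Subgraph.deleteVerts_adj]
      exact ⟨trivial, t.2.2, trivial, hqu, fun h => hne (congrArg Subtype.val h), e, he, hpq⟩
    refine (hX C q).2 ⟨⟨⟨q, hqv⟩, hmem⟩, ?_, rfl⟩
    rw [SimpleGraph.ConnectedComponent.mem_supp_iff] at ht ⊢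
    rw [← ht]
    exact (SimpleGraph.ConnectedComponent.sound hadj.reachable).symm
  have F3 : ∀ C, ∀ e ∈ G.es, Cr G (X C) e →
      (G.a e ∈ X C ∧ G.b e ∈ U) ∨ (G.b e ∈ X C ∧ G.a e ∈ U) := by
    intro C e he hc
    unfold Cr at hc
    by_cases ha : G.a e ∈ X C
    · left
      refine ⟨ha, ?_⟩
      by_contra hb
      exact hc ⟨fun _ => F0 C e he _ _ rfl ha hb, fun _ => ha⟩
    · right
      have hb : G.b e ∈ X C := by
        by_contra hb
        exact hc ⟨fun h => absurd h ha, fun h => absurd h hb⟩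
      refine ⟨hb, ?_⟩
      by_contra ha2
      exact ha (F0 C e he _ _ Sym2.eq_swap hb ha2)
  have hmain : (S.card : ℚ) ≤ U.card := by
    calc (S.card : ℚ) = ∑ C ∈ S, (1 : ℚ) := by simp
      _ ≤ ∑ C ∈ S, ∑ e ∈ cut G G.es (X C), w e := by
          refine Finset.sum_le_sum fun C hC => hG.odd (X C) (hXsub C) ?_
          rw [hXcard]
          exact (hS C).1 hC
      _ = ∑ C ∈ S, ∑ e ∈ G.es, (if Cr G (X C) e then w e else 0) := by
          refine Finset.sum_congr rfl fun C _ => ?_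
          unfold cut
          rw [Finset.sum_filter]
      _ = ∑ e ∈ G.es, ∑ C ∈ S, (if Cr G (X C) e then w e else 0) := Finset.sum_comm
      _ ≤ ∑ e ∈ G.es, ∑ v ∈ U, (if G.a e = v ∨ G.b e = v then w e else 0) := by
          refine Finset.sum_le_sum fun e he => ?_
          have hw := hG.pos e he
          have hnn : ∀ v ∈ U, 0 ≤ (if G.a e = v ∨ G.b e = v then w e else 0) := by
            intro v _
            split_ifs
            · exact hw.le
            · exact le_rfl
          by_cases hex : ∃ C ∈ S, Cr G (X C) e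
          · obtain ⟨C, hC, hc⟩ := hex
            have h1 : ∑ C' ∈ S, (if Cr G (X C') e then w e else 0) = w e := by
              rw [Finset.sum_eq_single C]
              · rw [if_pos hc]
              · intro C' _ hne
                rw [if_neg]
                intro hc'
                apply hne
                rcases F3 C e he hc with ⟨h2, h3⟩ | ⟨h2, h3⟩ <;>
                rcases F3 C' e he hc' with ⟨h4, h5⟩ | ⟨h4, h5⟩
                · exact F2 _ _ _ h4 h2
                · exact absurd h3 (F1 _ _ h4)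
                · exact absurd h3 (F1 _ _ h4)
                · exact F2 _ _ _ h4 h2
              · intro h
                exact absurd hC h
            rw [h1]
            rcases F3 C e he hc with ⟨h2, h3⟩ | ⟨h2, h3⟩
            · have h6 := Finset.single_le_sum hnn h3
              rw [if_pos (Or.inr rfl)] at h6
              exact h6
            · have h6 := Finset.single_le_sum hnn h3
              rw [if_pos (Or.inl rfl)] at h6
              exact h6
          · have h1 : ∑ C' ∈ S, (if Cr G (X C') e then w e else 0) = 0 := by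
              refine Finset.sum_eq_zero fun C hC => ?_
              rw [if_neg (fun h => hex ⟨C, hC, h⟩)]
            rw [h1]
            exact Finset.sum_nonneg hnn
      _ = ∑ v ∈ U, ∑ e ∈ G.es, (if G.a e = v ∨ G.b e = v then w e else 0) := Finset.sum_comm
      _ = ∑ v ∈ U, (1 : ℚ) := by
          refine Finset.sum_congr rfl fun v hv => ?_
          obtain ⟨t, _, rfl⟩ := (hU v).1 hv
          rw [← Finset.sum_filter]
          exact hG.deg _ t.2
      _ = U.card := by simp
  rw [hScard, ← hUcard]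
  exact_mod_cast hmain

/-- TUT: a perfect matching exists (Tutte) -/
theorem pf_TUT : T_TUT := by
  intro V E _ _ G w hG
  classical
  obtain ⟨M, hM, hsp⟩ := SimpleGraph.tutte.2 (fun u => tutte_cond hG u)
  have hch : ∀ s : {s : Sym2 V // ∃ e ∈ G.es, s(G.a e, G.b e) = s}, ∃ e ∈ G.es,
      s(G.a e, G.b e) = s.1 := fun s => s.2
  choose g hg using hch
  refine ⟨G.es.filter (fun e => ∃ he : e ∈ G.es, g ⟨s(G.a e, G.b e), e, he, rfl⟩ = e ∧
    ∃ p q, M.Adj p q ∧ s(G.a e, G.b e) = s(p.1, q.1)), Finset.filter_subset _ _, ?_⟩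
  intro v hv
  obtain ⟨q, hq, huq⟩ := hM (hsp ⟨v, hv⟩)
  have hadj := M.adj_sub hq
  obtain ⟨_, e1, he1, hs1⟩ := hadj
  have hex : ∃ e ∈ G.es, s(G.a e, G.b e) = s(v, q.1) := ⟨e1, he1, hs1⟩
  obtain ⟨e0, hed⟩ : ∃ e0, e0 = g ⟨s(v, q.1), hex⟩ := ⟨_, rfl⟩
  have hg0 := hg ⟨s(v, q.1), hex⟩
  rw [← hed] at hg0
  obtain ⟨hg1, hg2⟩ := hg0
  rw [Finset.card_eq_one]
  refine ⟨e0, ?_⟩
  ext e
  unfold H43.F5.star
  rw [Finset.mem_filter, Finset.mem_filter, Finset.mem_singleton]
  constructor
  · rintro ⟨⟨he, he', hge, p, r, hpr, hs⟩, hv2⟩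
    have h1 : s(G.a e, G.b e) = s(v, q.1) := by
      have h2 : v ∈ s(G.a e, G.b e) := by
        rcases hv2 with h | h
        · rw [← h]; exact Sym2.mem_mk_left _ _
        · rw [← h]; exact Sym2.mem_mk_right _ _
      rw [hs] at h2 ⊢
      rcases Sym2.mem_iff.1 h2 with h | h
      · have h3 : p = ⟨v, hv⟩ := Subtype.ext h.symm
        rw [h3] at hpr
        rw [huq r hpr, h3]
      · have h3 : r = ⟨v, hv⟩ := Subtype.ext h.symm
        rw [h3] at hpr
        rw [huq p hpr.symm, h3]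
        exact Sym2.eq_swap
    rw [← hge, hed]
    congr 1
    exact Subtype.ext h1
  · rintro rfl
    refine ⟨⟨hg1, hg1, ?_, ⟨v, hv⟩, q, hq, hg2⟩, ?_⟩
    · have h1 : (⟨s(G.a e, G.b e), e, hg1, rfl⟩ :
          {s : Sym2 V // ∃ e ∈ G.es, s(G.a e, G.b e) = s}) = ⟨s(v, q.1), hex⟩ :=
        Subtype.ext hg2
      rw [h1]
      exact hed.symm
    · have h2 : v ∈ s(G.a e, G.b e) := by rw [hg2]; exact Sym2.mem_mk_left _ _
      rcases Sym2.mem_iff.1 h2 with h | h
      · exact Or.inl h.symm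
      · exact Or.inr h.symm

end Pool.Agent.H49.RG
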